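import Mathlib

namespace Pool.Agent.Results.MP_8dadf2_al.TeichDependent

/-- The Teichmueller vector `(r, r ^ p, r ^ (p ^ 2), …)`. -/
def teich {A : Type} [Ring A] (p : ℕ) (r : A) : ℕ → A := fun k => r ^ p ^ k

lemma pow_eq {A : Type} [Ring A] (L R w P : A) (h : R * L = P) (n : ℕ) :
    (L * w * R) ^ (n + 1) = L * ((w * P) ^ n * w) * R := by
  induction n with
  | zero => simp
  | succ n ih => rw [pow_succ, ih, pow_succ, ← h]; simp only [mul_assoc]

theorem result (p : ℕ) (hp : p.Prime) :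
    ∃ f : Fin 6 → FreeAlgebra ℤ (Fin 2), Function.Injective f ∧ (∀ i, f i ≠ 0) ∧
      (∀ i j, i ≠ j → f i ≠ -f j) ∧ ¬ LinearIndependent ℤ (fun i => teich p (f i)) := by
  let u : FreeAlgebra ℤ (Fin 2) := FreeAlgebra.ι ℤ 0
  let w : FreeAlgebra ℤ (Fin 2) := FreeAlgebra.ι ℤ 1
  let L : Fin 6 → FreeAlgebra ℤ (Fin 2) :=
    ![u * u - u, u + 1, u * u - 1, u, u * u + u, u - 1]
  let R : Fin 6 → FreeAlgebra ℤ (Fin 2) :=
    ![u + 1, u * u - u, u, u * u - 1, u - 1, u * u + u]
  let c : Fin 6 → ℤ := ![1, 1, -2, -2, 1, 1]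
  let φ : FreeAlgebra ℤ (Fin 2) →ₐ[ℤ] Matrix (Fin 2) (Fin 2) ℤ :=
    FreeAlgebra.lift ℤ ![!![2, 0; 0, 5], !![0, 1; 0, 0]]
  have hu : φ u = !![2, 0; 0, 5] := by simp [φ, u]
  have hw : φ w = !![0, 1; 0, 0] := by simp [φ, w]
  have hval : ∀ i, φ (L i * w * R i) 0 1 = ![12, 60, 15, 48, 24, 30] i := by
    intro i
    fin_cases i <;> simp only [L, R, Fin.zero_eta, Fin.mk_one, Fin.reduceFinMk, Matrix.cons_val,
      Matrix.cons_val_zero, Matrix.cons_val_one, map_mul, map_sub, map_add, map_one, hu, hw] <;>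
      decide
  refine ⟨fun i => L i * w * R i, fun i j h => ?_, fun i h => ?_, fun i j _ h => ?_, fun h => ?_⟩
  · have h1 := hval i
    simp only at h
    rw [h, hval j] at h1
    clear h; revert i j; decide
  · have h1 := hval i
    simp only at h
    rw [h, map_zero] at h1
    clear h; revert i; decide
  · have h1 := hval i
    simp only at h
    rw [h, map_neg, Matrix.neg_apply, hval j] at h1
    clear h; revert i j; decide
  · have h0 := Fintype.linearIndependent_iff.1 h c (by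
      ext1 k
      obtain ⟨n, hn⟩ : ∃ n, p ^ k = n + 1 := ⟨p ^ k - 1, by have := pow_pos hp.pos k; omega⟩
      have hP : ∀ i, R i * L i = u * u * u - u := by
        intro i; fin_cases i <;> simp [L, R] <;> noncomm_ring
      simp only [Finset.sum_apply, Pi.smul_apply, teich, hn, pow_eq _ _ w _ (hP _), Pi.zero_apply]
      generalize (w * (u * u * u - u)) ^ n * w = Y
      simp [Fin.sum_univ_six, L, R, c]
      noncomm_ring) 0
    simp [c] at h0

end Pool.Agent.Results.MP_8dadf2_al.TeichDependent
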